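import Pool.Agent.Helper58.DG.Goals

/-!
# E_DEG: the signed number of solutions does not depend on the sizes
-/

set_option autoImplicit false

open Set
open scoped ContDiff

namespace Pool.Agent.Helper24.DG

open Pool.Agent.Helper83.EIN Pool.Agent.Helper58.DG

/-- the path of relative sizes -/
def pa (μ ν : Fin 4 → ℝ) (s : ℝ) : Fin 4 → ℝ := fun i ↦ (1 - s) * μ i + s * ν i

theorem pa_cd (μ ν : Fin 4 → ℝ) :
    ContDiff ℝ ∞ (fun z : ℝ × (Fin 6 → ℝ) ↦ PA (pa μ ν z.1) z.2) := by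
  unfold PA pa
  rw [contDiff_pi]
  intro i
  fin_cases i <;> simp <;> fun_prop

theorem nu_pos {a b c t : ℝ} (ha : 0 < a) (hb : 0 < b) (hc : 0 < c) (ht : 0 < t) (ht1 : t < 1)
    (i : Fin 4) : 0 < nu a b c t i := by
  fin_cases i
  · exact mul_pos ht ha
  · exact mul_pos ht hb
  · exact mul_pos ht hc
  · exact sub_pos.2 ht1

theorem nu_sum {a b c t : ℝ} (h : a + b + c = 1) :
    nu a b c t 0 + nu a b c t 1 + nu a b c t 2 + nu a b c t 3 = 1 := by
  show t * a + t * b + t * c + (1 - t) = 1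
  rw [← mul_add, ← mul_add, h]; ring

/-- the zeros of `PA ν` with positive coordinates lie in a fixed box -/
theorem box {ν : Fin 4 → ℝ} {δ : ℝ} (hδ : 0 < δ) (hν : ∀ i, δ ≤ ν i)
    (hs : ν 0 + ν 1 + ν 2 + ν 3 = 1) {v : Fin 6 → ℝ} (hv : ∀ i, 0 < v i) (h : PA ν v = 0) :
    v ∈ Icc (fun _ : Fin 6 ↦ δ) (fun _ ↦ 2) := by
  have h0 := hν 0
  have h1 := hν 1
  have h2 := hν 2
  have h3 := hν 3
  have ht : 0 < 1 - ν 3 := by linarith
  have e : nu (ν 0 / (1 - ν 3)) (ν 1 / (1 - ν 3)) (ν 2 / (1 - ν 3)) (1 - ν 3) = ν := by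
    funext i
    fin_cases i
    · exact mul_div_cancel₀ _ ht.ne'
    · exact mul_div_cancel₀ _ ht.ne'
    · exact mul_div_cancel₀ _ ht.ne'
    · exact sub_sub_cancel _ _
  have hS : Sol (ν 0 / (1 - ν 3)) (ν 1 / (1 - ν 3)) (ν 2 / (1 - ν 3)) (1 - ν 3) v := by
    rw [sol_iff_FA hv, FA_eq, e]
    exact h
  have B := bd ti (div_pos (by linarith) ht) (div_pos (by linarith) ht)
    (div_pos (by linarith) ht) (by rw [← add_div, ← add_div, div_eq_one_iff_eq ht.ne']; linarith)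
    ht (by linarith) hS
  have m0 : (1 - ν 3) * (ν 0 / (1 - ν 3)) = ν 0 := mul_div_cancel₀ _ ht.ne'
  have m1 : (1 - ν 3) * (ν 1 / (1 - ν 3)) = ν 1 := mul_div_cancel₀ _ ht.ne'
  have m2 : (1 - ν 3) * (ν 2 / (1 - ν 3)) = ν 2 := mul_div_cancel₀ _ ht.ne'
  have l0 := B.l0
  have l1 := B.l1
  have l2 := B.l2
  have l3 := B.l3
  have l4 := B.l4
  have l5 := B.l5
  have u3 := B.u3
  have u4 := B.u4
  have u5 := B.u5
  rw [mul_add, m0, m1] at l0
  rw [mul_add, m0, m2] at l1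
  rw [mul_add, m1, m2] at l2
  constructor
  · intro i
    fin_cases i
    · show δ ≤ v 0
      linarith
    · show δ ≤ v 1
      linarith
    · show δ ≤ v 2
      linarith
    · show δ ≤ v 3
      linarith
    · show δ ≤ v 4
      linarith
    · show δ ≤ v 5
      linarith
  · intro i
    fin_cases i
    · exact B.u0
    · exact B.u1
    · exact B.u2
    · show v 3 ≤ 2
      linarith
    · show v 4 ≤ 2
      linarith
    · show v 5 ≤ 2
      linarith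

theorem e_deg (hD : D_DEG) : E_DEG := by
  intro a b c t a' b' c' t' Z Z' ha hb hc habc ht ht1 ha' hb' hc' habc' ht' ht1' hZ hZ' hj hj'
  set μ := nu a b c t with hμ
  set ν := nu a' b' c' t' with hν
  have pμ : ∀ i, 0 < μ i := nu_pos ha hb hc ht ht1
  have pν : ∀ i, 0 < ν i := nu_pos ha' hb' hc' ht' ht1'
  have sμ : μ 0 + μ 1 + μ 2 + μ 3 = 1 := nu_sum habc
  have sν : ν 0 + ν 1 + ν 2 + ν 3 = 1 := nu_sum habc'
  obtain ⟨δ, hδ, hδμ, hδν⟩ : ∃ δ > 0, (∀ i, δ ≤ μ i) ∧ ∀ i, δ ≤ ν i := by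
    obtain ⟨i, -, hi⟩ := Finset.exists_min_image Finset.univ μ ⟨0, Finset.mem_univ _⟩
    obtain ⟨j, -, hj⟩ := Finset.exists_min_image Finset.univ ν ⟨0, Finset.mem_univ _⟩
    exact ⟨min (μ i) (ν j), lt_min (pμ i) (pν j),
      fun k ↦ (min_le_left _ _).trans (hi k (Finset.mem_univ _)),
      fun k ↦ (min_le_right _ _).trans (hj k (Finset.mem_univ _))⟩
  have e0 : pa μ ν 0 = μ := by funext i; simp [pa]
  have e1 : pa μ ν 1 = ν := by funext i; simp [pa]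
  have f0 : PA (pa μ ν 0) = FA a b c t := by rw [e0]; rfl
  have f1 : PA (pa μ ν 1) = FA a' b' c' t' := by rw [e1]; rfl
  have key := hD 6 (by norm_num) (fun s v ↦ PA (pa μ ν s) v) {v | ∀ i, 0 < v i}
    (Icc (fun _ : Fin 6 ↦ δ) (fun _ ↦ 2)) Z Z' (pa_cd μ ν) ?_ isCompact_Icc ?_ ?_ ?_ ?_ ?_ ?_
  · simp only [f0, f1] at key
    exact key
  · simp only [ofPred_forall]
    exact isOpen_iInter_of_finite fun i ↦ isOpen_lt continuous_const (continuous_apply i)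
  · intro v hv i
    exact lt_of_lt_of_le hδ (hv.1 i)
  · rintro s ⟨hs0, hs1⟩ v hv h
    refine box hδ (fun i ↦ ?_) ?_ hv h
    · have h1 := mul_le_mul_of_nonneg_left (hδμ i) (sub_nonneg.2 hs1)
      have h2 := mul_le_mul_of_nonneg_left (hδν i) hs0
      show δ ≤ (1 - s) * μ i + s * ν i
      linarith
    · show (1 - s) * μ 0 + s * ν 0 + ((1 - s) * μ 1 + s * ν 1) + ((1 - s) * μ 2 + s * ν 2) +
        ((1 - s) * μ 3 + s * ν 3) = 1
      linear_combination (1 - s) * sμ + s * sν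
  · intro v
    rw [hZ v]
    show _ ↔ (∀ i, 0 < v i) ∧ PA (pa μ ν 0) v = 0
    rw [f0]
    exact ⟨fun h ↦ ⟨h.pos, (sol_iff_FA h.pos).1 h⟩, fun h ↦ (sol_iff_FA h.1).2 h.2⟩
  · intro v
    rw [hZ' v]
    show _ ↔ (∀ i, 0 < v i) ∧ PA (pa μ ν 1) v = 0
    rw [f1]
    exact ⟨fun h ↦ ⟨h.pos, (sol_iff_FA h.pos).1 h⟩, fun h ↦ (sol_iff_FA h.1).2 h.2⟩
  · intro v hv
    show jac (PA (pa μ ν 0)) v ≠ 0
    rw [f0]
    exact hj v hv
  · intro v hv
    show jac (PA (pa μ ν 1)) v ≠ 0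
    rw [f1]
    exact hj' v hv

end Pool.Agent.Helper24.DG
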